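import Pool.Agent.Y279.HS.Area

/-! On suitable closed hyperbolic surfaces of arbitrarily large genus the bound
`λ_i ≥ K i L_i / g²` fails for all `i ≥ ε g` at once, and `λ_i ≤ C L_i / (i log g)` for all `i`. -/

set_option autoImplicit false

open scoped MatrixGroups UpperHalfPlane ENNReal
open MeasureTheory UpperHalfPlane

namespace Pool.Agent.Results.MP_d28b99_gt.AllIndices

open Pool.Agent.H85R3.HS (IsClosedSurface genus eigenvalue cutLength MovesFar cong area Sep
  exists_packing volume_ball_large cutLength_ge cocompact)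
open Pool.Agent.Y279.HS (vol_half area_cong exists_level' Lam Lam_nonneg)

/-- A surface of systole at least `1 / 2` has `λ_i ≤ Lam` for all `i ≤ 2 g - 3`. -/
theorem eig_le {Γ : Subgroup SL(2, ℝ)} {S : ℝ} (hM : MovesFar Γ S) (hS : 1 / 2 ≤ S)
    (hΓ : IsClosedSurface Γ) {i : ℕ} (hi : (i : ℝ) ≤ 2 * genus Γ - 3) :
    eigenvalue Γ i ≤ Lam := by
  have hS0 : 0 < S := by linarith
  obtain ⟨Q, hQ, hQΓ⟩ := hΓ.cocompact
  obtain ⟨D, hDm, hD⟩ := hM.exists_domain hS0
  obtain ⟨n, z, hz, -, hn2⟩ := exists_packing hM hS0 hQ hQΓ (r := 1 / 4) (by norm_num)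
    (by linarith) hD
  have hDfin : volume D < ⊤ := (hM.volume_le_of_cover hS0 hD hQΓ).trans_lt hQ.measure_lt_top
  have hA : area Γ = (volume D).toReal := by
    unfold area
    rw [hM.area_eq hS0 hD]
  have hAe : ENNReal.ofReal (area Γ) = volume D := by
    rw [hA, ENNReal.ofReal_toReal hDfin.ne]
  have hpi := Real.pi_pos
  have h1 : area Γ ≤ n * (2 * Real.pi) := by
    have h2 : volume D ≤ n * ENNReal.ofReal (2 * Real.pi) := by
      refine hn2.trans ?_
      gcongr
      have h3 : (2 * (1 / 4) : ℝ) = 1 / 2 := by norm_num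
      rw [h3]
      exact vol_half
    rw [← hAe, ← ENNReal.ofReal_natCast, ← ENNReal.ofReal_mul (by positivity)] at h2
    exact (ENNReal.ofReal_le_ofReal_iff (by positivity)).mp h2
  have h2 : i + 1 ≤ n := by
    unfold genus at hi
    have h3 : area Γ / (4 * Real.pi) ≤ n / 2 := by
      rw [div_le_iff₀ (by positivity)]
      linarith
    have h4 : ((i : ℝ) + 1) ≤ n := by linarith
    exact_mod_cast h4
  have hz' : Sep Γ (1 / 4) (fun j : Fin (i + 1) => z (Fin.castLE h2 j)) := by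
    intro j k g hg hne
    refine hz _ _ g hg ?_
    rcases hne with h | h
    · left
      intro h'
      exact h (Fin.castLE_injective h2 h')
    · exact Or.inr h
  exact Pool.Agent.Y279.HS.eigenvalue_le hM hS0 (by norm_num) hz'

/-- Closed surfaces of large systole and large genus, with systole `≥ c log g`. -/
theorem surfaces : ∃ c : ℝ, 0 < c ∧ ∀ T : ℝ, ∃ (Γ : Subgroup SL(2, ℝ)) (S : ℝ), T ≤ S ∧ 1 ≤ S ∧
    MovesFar Γ S ∧ IsClosedSurface Γ ∧ T ≤ genus Γ ∧ Real.log (genus Γ) ≤ c * S := by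
  obtain ⟨C, hC, hCN⟩ := area_cong
  have hlog : 0 ≤ Real.log (1 + 6561 * C) := Real.log_nonneg (by linarith)
  refine ⟨Real.log (1 + 6561 * C) + 4, by linarith, fun T => ?_⟩
  obtain ⟨R, hR, hRv⟩ := volume_ball_large (4 * Real.pi * |T|)
  set S : ℝ := max (max 1 T) (2 * R) with hSdef
  have hS1 : 1 ≤ S := (le_max_left _ _).trans (le_max_left _ _)
  have hST : T ≤ S := (le_max_right _ _).trans (le_max_left _ _)
  have hSR : 2 * R ≤ S := le_max_right _ _
  have hS : 0 < S := by linarith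
  obtain ⟨N, hN, hNS, hM⟩ := exists_level' hS.le
  obtain ⟨Q, hQ, hQΓ⟩ := cocompact hN
  obtain ⟨D, hDm, hD⟩ := hM.exists_domain hS
  have hDfin : volume D < ⊤ := (hM.volume_le_of_cover hS hD hQΓ).trans_lt hQ.measure_lt_top
  have hA : area (cong N) = (volume D).toReal := by
    unfold area
    rw [hM.area_eq hS hD]
  have hA0 : 0 ≤ area (cong N) := by rw [hA]; exact ENNReal.toReal_nonneg
  have hAe : ENNReal.ofReal (area (cong N)) = volume D := by
    rw [hA, ENNReal.ofReal_toReal hDfin.ne]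
  have hpi := Real.pi_pos
  have hbig : ENNReal.ofReal (4 * Real.pi * |T|) ≤ volume D := by
    refine hRv.trans (hM.volume_ge_of_packing hS hD Metric.isOpen_ball.measurableSet ?_)
    intro g hg hg1 w hw hw'
    have h1 := hM g hg hg1 w
    rw [Metric.mem_ball] at hw hw'
    have h2 := dist_triangle_right w (g • w) UpperHalfPlane.I
    linarith
  have hbig' : 4 * Real.pi * |T| ≤ area (cong N) := by
    rw [← hAe] at hbig
    exact (ENNReal.ofReal_le_ofReal_iff hA0).mp hbig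
  have hg1 : T ≤ genus (cong N) := by
    unfold genus
    have h1 : |T| ≤ area (cong N) / (4 * Real.pi) := by
      rw [le_div_iff₀ (by positivity)]
      linarith
    have h2 := le_abs_self T
    linarith
  have hN0 : (0 : ℝ) < N := by exact_mod_cast hN
  have hup : area (cong N) ≤ C * (N : ℝ) ^ 4 := by
    have h1 := hCN N S hN hS hM D hD
    rw [← hAe] at h1
    exact (ENNReal.ofReal_le_ofReal_iff (by positivity)).mp h1
  refine ⟨cong N, S, hST, hS1, hM, ⟨hM.discrete hS, hM.free hS, Q, hQ, hQΓ⟩, hg1, ?_⟩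
  have he : 1 ≤ Real.exp (4 * S) := Real.one_le_exp (by linarith)
  have h4 : (N : ℝ) ^ 4 ≤ 6561 * Real.exp (4 * S) := by
    calc (N : ℝ) ^ 4 ≤ (9 * Real.exp S) ^ 4 := pow_le_pow_left₀ hN0.le hNS 4
      _ = 6561 * Real.exp (4 * S) := by
        rw [mul_pow, ← Real.exp_nat_mul]
        norm_num
  have h5 : genus (cong N) ≤ (1 + 6561 * C) * Real.exp (4 * S) := by
    unfold genus
    have h6 : area (cong N) / (4 * Real.pi) ≤ area (cong N) := by
      rw [div_le_iff₀ (by positivity)]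
      have := Real.pi_gt_three
      nlinarith
    have h7 : C * (N : ℝ) ^ 4 ≤ C * (6561 * Real.exp (4 * S)) := by gcongr
    nlinarith
  have hg0 : 0 < genus (cong N) := by
    unfold genus
    positivity
  calc Real.log (genus (cong N)) ≤ Real.log ((1 + 6561 * C) * Real.exp (4 * S)) :=
        Real.log_le_log hg0 h5
    _ = Real.log (1 + 6561 * C) + 4 * S := by
        rw [Real.log_mul (by positivity) (Real.exp_pos _).ne', Real.log_exp]
    _ ≤ (Real.log (1 + 6561 * C) + 4) * S := by nlinarith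

/-- **Theorem.** (1) There is no constant `K > 0` such that `λ_i ≥ K i L_i / g²` for all closed
hyperbolic surfaces and all `1 ≤ i ≤ 2 g - 3`.
(2) For all `K > 0` and `ε > 0` there are closed hyperbolic surfaces of arbitrarily large genus on
which the inequality fails for every `i` in `[ε g, 2 g - 3]` simultaneously.
(3) There is `C` such that there are closed hyperbolic surfaces of arbitrarily large genus `g` with
`λ_i ≤ C L_i / (i log g)` for every `i` in `[1, 2 g - 3]` simultaneously.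
(4) There is `C` such that every closed hyperbolic surface all of whose nontrivial deck
transformations move every point by at least `S`, where `S ≥ 1 / 2`, satisfies
`λ_i ≤ C L_i / (i S)` for every `i` in `[1, 2 g - 3]`. -/
theorem result :
    (∀ K : ℝ, 0 < K → ∃ Γ : Subgroup SL(2, ℝ), IsClosedSurface Γ ∧
      ∃ i : ℕ, 1 ≤ i ∧ (i : ℝ) ≤ 2 * genus Γ - 3 ∧
        ENNReal.ofReal (eigenvalue Γ i) < ENNReal.ofReal (K * i / genus Γ ^ 2) * cutLength Γ i) ∧
    (∀ K : ℝ, 0 < K → ∀ ε : ℝ, 0 < ε → ∀ G : ℝ, ∃ Γ : Subgroup SL(2, ℝ), IsClosedSurface Γ ∧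
      G ≤ genus Γ ∧ ∀ i : ℕ, 1 ≤ i → ε * genus Γ ≤ i → (i : ℝ) ≤ 2 * genus Γ - 3 →
        ENNReal.ofReal (eigenvalue Γ i) < ENNReal.ofReal (K * i / genus Γ ^ 2) * cutLength Γ i) ∧
    (∃ C : ℝ, 0 < C ∧ ∀ G : ℝ, ∃ Γ : Subgroup SL(2, ℝ), IsClosedSurface Γ ∧
      G ≤ genus Γ ∧ ∀ i : ℕ, 1 ≤ i → (i : ℝ) ≤ 2 * genus Γ - 3 →
        ENNReal.ofReal (eigenvalue Γ i) ≤
          ENNReal.ofReal (C / (i * Real.log (genus Γ))) * cutLength Γ i) ∧
    (∃ C : ℝ, 0 < C ∧ ∀ (Γ : Subgroup SL(2, ℝ)) (S : ℝ), IsClosedSurface Γ → 1 / 2 ≤ S →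
      MovesFar Γ S → ∀ i : ℕ, 1 ≤ i → (i : ℝ) ≤ 2 * genus Γ - 3 →
        ENNReal.ofReal (eigenvalue Γ i) ≤ ENNReal.ofReal (C / (i * S)) * cutLength Γ i) := by
  have hL := Lam_nonneg
  have P4 : ∀ (Γ : Subgroup SL(2, ℝ)) (S : ℝ), IsClosedSurface Γ → 1 / 2 ≤ S →
      MovesFar Γ S → ∀ i : ℕ, 1 ≤ i → (i : ℝ) ≤ 2 * genus Γ - 3 →
        ENNReal.ofReal (eigenvalue Γ i) ≤
          ENNReal.ofReal ((Lam + 1) / (i * S)) * cutLength Γ i := by
    intro Γ S hΓ hS hM i hi hi2
    have hS0 : 0 < S := by linarith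
    have hi0 : (0 : ℝ) < i := by exact_mod_cast hi
    calc ENNReal.ofReal (eigenvalue Γ i) ≤ ENNReal.ofReal (Lam + 1) :=
          ENNReal.ofReal_le_ofReal (by linarith [eig_le hM hS hΓ hi2])
      _ = ENNReal.ofReal ((Lam + 1) / (i * S)) * ((i : ℝ≥0∞) * ENNReal.ofReal S) := by
          rw [← ENNReal.ofReal_natCast, ← ENNReal.ofReal_mul (by positivity),
            ← ENNReal.ofReal_mul (by positivity), div_mul_cancel₀ _ (by positivity)]
      _ ≤ _ := by
          gcongr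
          exact cutLength_ge hM hS0 i
  have P2 : ∀ K : ℝ, 0 < K → ∀ ε : ℝ, 0 < ε → ∀ G : ℝ, ∃ Γ : Subgroup SL(2, ℝ),
      IsClosedSurface Γ ∧ G ≤ genus Γ ∧ ∀ i : ℕ, 1 ≤ i → ε * genus Γ ≤ i →
        (i : ℝ) ≤ 2 * genus Γ - 3 →
        ENNReal.ofReal (eigenvalue Γ i) <
          ENNReal.ofReal (K * i / genus Γ ^ 2) * cutLength Γ i := by
    intro K hK ε hε G
    obtain ⟨c, hc, hcT⟩ := surfaces
    obtain ⟨Γ, S, hTS, hS1, hM, hΓ, hTg, -⟩ := hcT (max (max G 1) ((Lam + 1) / (K * ε ^ 2)))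
    have hg1 : 1 ≤ genus Γ := ((le_max_right _ _).trans (le_max_left _ _)).trans hTg
    have hS2 : (Lam + 1) / (K * ε ^ 2) ≤ S := (le_max_right _ _).trans hTS
    refine ⟨Γ, hΓ, ((le_max_left _ _).trans (le_max_left _ _)).trans hTg, fun i hi hεi hi2 => ?_⟩
    have hS0 : 0 < S := by linarith
    have hi0 : (0 : ℝ) < i := by exact_mod_cast hi
    have hg0 : 0 < genus Γ := by linarith
    have h0 : (0 : ℝ) ≤ K * (i : ℝ) / genus Γ ^ 2 := by positivity
    have hSK : Lam + 1 ≤ S * (K * ε ^ 2) := by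
      rw [div_le_iff₀ (by positivity)] at hS2
      exact hS2
    have hkey : Lam < K * (i : ℝ) / genus Γ ^ 2 * (i * S) := by
      rw [div_mul_eq_mul_div, lt_div_iff₀ (by positivity)]
      have h1 : (ε * genus Γ) ^ 2 ≤ (i : ℝ) ^ 2 := pow_le_pow_left₀ (by positivity) hεi 2
      have h2 : 0 < genus Γ ^ 2 := by positivity
      calc Lam * genus Γ ^ 2 < (Lam + 1) * genus Γ ^ 2 := by nlinarith
        _ ≤ S * (K * ε ^ 2) * genus Γ ^ 2 := by gcongr
        _ = K * S * (ε * genus Γ) ^ 2 := by ring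
        _ ≤ K * S * (i : ℝ) ^ 2 := by gcongr
        _ = K * i * (i * S) := by ring
    calc ENNReal.ofReal (eigenvalue Γ i) ≤ ENNReal.ofReal Lam :=
          ENNReal.ofReal_le_ofReal (eig_le hM (by linarith) hΓ hi2)
      _ < ENNReal.ofReal (K * i / genus Γ ^ 2 * (i * S)) := by
          rw [ENNReal.ofReal_lt_ofReal_iff_of_nonneg hL]
          exact hkey
      _ = ENNReal.ofReal (K * i / genus Γ ^ 2) * ((i : ℝ≥0∞) * ENNReal.ofReal S) := by
          rw [ENNReal.ofReal_mul h0, ENNReal.ofReal_mul (by positivity), ENNReal.ofReal_natCast]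
      _ ≤ _ := by
          gcongr
          exact cutLength_ge hM hS0 i
  refine ⟨?_, P2, ?_, Lam + 1, by linarith, P4⟩
  · intro K hK
    obtain ⟨Γ, hΓ, hg, h⟩ := P2 K hK 1 one_pos 4
    have h0 : 0 ≤ 2 * genus Γ - 3 := by linarith
    have h1 : (⌊2 * genus Γ - 3⌋₊ : ℝ) ≤ 2 * genus Γ - 3 := Nat.floor_le h0
    have h2 : 2 * genus Γ - 3 < (⌊2 * genus Γ - 3⌋₊ : ℝ) + 1 := Nat.lt_floor_add_one _
    have h3 : 1 ≤ ⌊2 * genus Γ - 3⌋₊ := by
      rw [Nat.one_le_floor_iff]
      linarith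
    exact ⟨Γ, hΓ, _, h3, h1, h _ h3 (by linarith) h1⟩
  · obtain ⟨c, hc, hcT⟩ := surfaces
    refine ⟨(Lam + 1) * c, by positivity, fun G => ?_⟩
    obtain ⟨Γ, S, hTS, hS1, hM, hΓ, hTg, hlog⟩ := hcT (max G 2)
    have hg2 : 2 ≤ genus Γ := (le_max_right _ _).trans hTg
    refine ⟨Γ, hΓ, (le_max_left _ _).trans hTg, fun i hi hi2 => ?_⟩
    refine (P4 Γ S hΓ (by linarith) hM i hi hi2).trans ?_
    have hS0 : 0 < S := by linarith
    have hi0 : (0 : ℝ) < i := by exact_mod_cast hi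
    have hl : 0 < Real.log (genus Γ) := Real.log_pos (by linarith)
    gcongr ENNReal.ofReal ?_ * _
    rw [div_le_div_iff₀ (by positivity) (by positivity)]
    calc (Lam + 1) * (i * Real.log (genus Γ)) ≤ (Lam + 1) * (i * (c * S)) := by gcongr
      _ = (Lam + 1) * c * (i * S) := by ring

end Pool.Agent.Results.MP_d28b99_gt.AllIndices
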